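import Mathlib

/-!
# Partial sums of characters

Characters `α : Fin N → ZMod m` of the group of diagonal matrices. If the sum of the coordinates
of `α` is zero and no other nonempty set of coordinates has the sum zero then the `N - 1` partial
sums of `α` are different and not zero. Two characters with the same set of partial sums are equal,
or they can be cut in three blocks with opposite sums.
-/

set_option autoImplicit false

namespace Pool.Agent.U840.VS

open Finset

variable {N m : ℕ}

/-- the partial sum of the first `j` coordinates -/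
def ps (α : Fin N → ZMod m) (j : ℕ) : ZMod m := ∑ i with i.val < j, α i

/-- the set of the partial sums -/
def pset (α : Fin N → ZMod m) : Finset (ZMod m) := (Icc 1 (N - 1)).image (ps α)

lemma ps_zero (α : Fin N → ZMod m) : ps α 0 = 0 := by simp [ps]

lemma ps_last {α : Fin N → ZMod m} (h0 : ∑ i, α i = 0) : ps α N = 0 := by
  rw [ps, filter_true_of_mem fun i _ => i.2, h0]

lemma ps_succ (α : Fin N → ZMod m) (i : Fin N) : ps α (i.val + 1) = ps α i.val + α i := by
  have h : (univ.filter fun l : Fin N => l.val < i.val + 1) =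
      insert i (univ.filter fun l : Fin N => l.val < i.val) := by
    ext l
    simp only [mem_filter, mem_univ, true_and, mem_insert, Fin.ext_iff]
    omega
  rw [ps, ps, h, sum_insert (by simp), add_comm]

lemma ps_sub (α : Fin N → ZMod m) {j j' : ℕ} (h : j ≤ j') :
    ps α j' - ps α j = ∑ i with j ≤ i.val ∧ i.val < j', α i := by
  have h1 : (univ.filter fun l : Fin N => l.val < j') =
      (univ.filter fun l : Fin N => l.val < j) ∪
        (univ.filter fun l : Fin N => j ≤ l.val ∧ l.val < j') := by
    ext l
    simp only [mem_filter, mem_univ, true_and, mem_union]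
    omega
  rw [ps, ps, h1, sum_union, add_sub_cancel_left]
  rw [disjoint_filter]
  intro l _ h2 h3
  omega

/-- no proper nonempty set of coordinates has the sum zero -/
def Prim (α : Fin N → ZMod m) : Prop :=
  ∑ i, α i = 0 ∧ ∀ B : Finset (Fin N), B.Nonempty → B ≠ univ → ∑ i ∈ B, α i ≠ 0

lemma Prim.ps_ne {α : Fin N → ZMod m} (h : Prim α) {j : ℕ} (h1 : 1 ≤ j) (h2 : j < N) :
    ps α j ≠ 0 := by
  refine h.2 _ ⟨⟨0, by omega⟩, ?_⟩ ?_
  · simp only [mem_filter, mem_univ, true_and]
    omega
  · intro h3
    have h4 : (⟨j, h2⟩ : Fin N) ∈ univ.filter fun l : Fin N => l.val < j := by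
      rw [h3]
      exact mem_univ _
    simp at h4

lemma Prim.ps_ne' {α : Fin N → ZMod m} (h : Prim α) {j j' : ℕ} (h1 : 1 ≤ j) (h2 : j < j')
    (h3 : j' < N) : ps α j ≠ ps α j' := by
  intro h4
  have h5 := ps_sub α h2.le
  rw [h4, sub_self] at h5
  refine h.2 _ ⟨⟨j, by omega⟩, ?_⟩ ?_ h5.symm
  · simp only [mem_filter, mem_univ, true_and]
    omega
  · intro h6
    have h7 : (⟨0, by omega⟩ : Fin N) ∈ univ.filter fun l : Fin N => j ≤ l.val ∧ l.val < j' := by
      rw [h6]
      exact mem_univ _
    simp only [mem_filter, mem_univ, true_and] at h7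
    omega

lemma Prim.injOn {α : Fin N → ZMod m} (h : Prim α) :
    Set.InjOn (ps α) (Icc 1 (N - 1) : Finset ℕ) := by
  intro j hj j' hj' h1
  rw [mem_coe, mem_Icc] at hj hj'
  by_contra h2
  rcases lt_or_gt_of_ne h2 with h3 | h3
  · exact h.ps_ne' hj.1 h3 (by omega) h1
  · exact h.ps_ne' hj'.1 h3 (by omega) h1.symm

lemma Prim.card_pset {α : Fin N → ZMod m} (h : Prim α) : (pset α).card = N - 1 := by
  rw [pset, card_image_of_injOn h.injOn, Nat.card_Icc]
  omega

lemma Prim.pset_mem [NeZero m] {α : Fin N → ZMod m} (h : Prim α) :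
    pset α ∈ powersetCard (N - 1) ((univ : Finset (ZMod m)).erase 0) := by
  rw [mem_powersetCard]
  refine ⟨fun x hx => ?_, h.card_pset⟩
  rw [pset, mem_image] at hx
  obtain ⟨j, hj, rfl⟩ := hx
  rw [mem_Icc] at hj
  exact mem_erase.2 ⟨h.ps_ne hj.1 (by omega), mem_univ _⟩

/-- the characters can be cut in three blocks with opposite sums -/
def Opp (α β : Fin N → ZMod m) : Prop :=
  ∃ b c : Fin N → Fin 3, (∀ B, ∑ i with b i = B, α i + ∑ i with c i = B, β i = 0) ∧
    (∀ B, ∃ i, b i = B) ∧ ∀ B, ∃ i, c i = B

/-- the sums over the three blocks of an interval decomposition -/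
lemma block_sums {α : Fin N → ZMod m} (h0 : ∑ i, α i = 0) {j j' : ℕ} (h : j ≤ j')
    (A B C : Fin 3) (hAB : A ≠ B) (hAC : A ≠ C) (hBC : B ≠ C) :
    (∑ i with (if i.val < j then A else if i.val < j' then B else C) = A, α i = ps α j) ∧
    (∑ i with (if i.val < j then A else if i.val < j' then B else C) = B, α i =
      ps α j' - ps α j) ∧
    (∑ i with (if i.val < j then A else if i.val < j' then B else C) = C, α i = - ps α j') := by
  have e1 : (univ.filter fun i : Fin N => (if i.val < j then A else if i.val < j' then B else C)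
      = A) = univ.filter fun i : Fin N => i.val < j := by
    ext i
    simp only [mem_filter, mem_univ, true_and]
    split_ifs with h1 h2
    · simp [h1]
    · simp [h1, hAB.symm]
    · simp [h1, hAC.symm]
  have e2 : (univ.filter fun i : Fin N => (if i.val < j then A else if i.val < j' then B else C)
      = B) = univ.filter fun i : Fin N => j ≤ i.val ∧ i.val < j' := by
    ext i
    simp only [mem_filter, mem_univ, true_and]
    split_ifs with h1 h2
    · constructor
      · intro h3
        exact absurd h3 hAB
      · intro h3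
        omega
    · simp [h2, not_lt.1 h1]
    · constructor
      · intro h3
        exact absurd h3 hBC.symm
      · intro h3
        omega
  have h2 : ∑ i with (if i.val < j then A else if i.val < j' then B else C) = B, α i =
      ps α j' - ps α j := by
    rw [e2, ps_sub α h]
  have h1 : ∑ i with (if i.val < j then A else if i.val < j' then B else C) = A, α i =
      ps α j := by
    rw [e1, ps]
  refine ⟨h1, h2, ?_⟩
  have h3 := sum_fiberwise (univ : Finset (Fin N))
    (fun i : Fin N => if i.val < j then A else if i.val < j' then B else C) α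
  rw [h0] at h3
  have h4 : ∀ A B C : Fin 3, A ≠ B → A ≠ C → B ≠ C → (univ : Finset (Fin 3)) = {A, B, C} := by
    decide
  rw [h4 A B C hAB hAC hBC, sum_insert (by simp [hAB, hAC]), sum_pair hBC, h1, h2] at h3
  linear_combination h3

/-- Two characters with the same set of partial sums are equal or opposite. -/
theorem eq_of_pset {α β : Fin N → ZMod m} (hα : Prim α) (hβ : Prim β) (h : pset α = pset β)
    (ho : ¬ Opp α β) : α = β := by
  have key : ∀ j, j < N → ps α j = ps β j := by
    intro j
    induction j using Nat.strong_induction_on with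
    | _ j ih =>
    intro hj
    rcases Nat.eq_zero_or_pos j with h0 | h0
    · rw [h0, ps_zero, ps_zero]
    by_contra hne
    have hu : ps α j ∈ pset β := by
      rw [← h, pset, mem_image]
      exact ⟨j, mem_Icc.2 ⟨h0, by omega⟩, rfl⟩
    have hv : ps β j ∈ pset α := by
      rw [h, pset, mem_image]
      exact ⟨j, mem_Icc.2 ⟨h0, by omega⟩, rfl⟩
    rw [pset, mem_image] at hu hv
    obtain ⟨j', hj', hu⟩ := hu
    obtain ⟨j'', hj'', hv⟩ := hv
    rw [mem_Icc] at hj' hj''
    have h1 : j < j' := by
      by_contra hcon
      rcases lt_or_eq_of_le (not_lt.1 hcon) with h2 | h2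
      · have h3 := ih j' h2 (by omega)
        rw [hu] at h3
        exact hα.ps_ne' hj'.1 h2 hj h3
      · subst h2
        exact hne hu.symm
    have h2 : j < j'' := by
      by_contra hcon
      rcases lt_or_eq_of_le (not_lt.1 hcon) with h2 | h2
      · have h3 := ih j'' h2 (by omega)
        rw [hv] at h3
        exact hβ.ps_ne' hj''.1 h2 hj h3.symm
      · subst h2
        exact hne hv
    apply ho
    refine ⟨fun i => if i.val < j then 0 else if i.val < j'' then 1 else 2,
      fun i => if i.val < j then 2 else if i.val < j' then 1 else 0, ?_, ?_, ?_⟩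
    · obtain ⟨a1, a2, a3⟩ := block_sums hα.1 h2.le 0 1 2 (by decide) (by decide) (by decide)
      obtain ⟨b1, b2, b3⟩ := block_sums hβ.1 h1.le 2 1 0 (by decide) (by decide) (by decide)
      intro B
      fin_cases B
      · change ∑ i with (if i.val < j then (0 : Fin 3) else if i.val < j'' then 1 else 2) = 0, α i +
          ∑ i with (if i.val < j then (2 : Fin 3) else if i.val < j' then 1 else 0) = 0, β i = 0
        rw [a1, b3, hu]
        ring
      · change ∑ i with (if i.val < j then (0 : Fin 3) else if i.val < j'' then 1 else 2) = 1, α i +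
          ∑ i with (if i.val < j then (2 : Fin 3) else if i.val < j' then 1 else 0) = 1, β i = 0
        rw [a2, b2, hu, hv]
        ring
      · change ∑ i with (if i.val < j then (0 : Fin 3) else if i.val < j'' then 1 else 2) = 2, α i +
          ∑ i with (if i.val < j then (2 : Fin 3) else if i.val < j' then 1 else 0) = 2, β i = 0
        rw [a3, b1, hv]
        ring
    · intro B
      fin_cases B
      · exact ⟨⟨0, by omega⟩, by simp [h0]⟩
      · exact ⟨⟨j, by omega⟩, by simp [h2]⟩
      · exact ⟨⟨j'', by omega⟩, by simp [h2.le]⟩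
    · intro B
      fin_cases B
      · exact ⟨⟨j', by omega⟩, by simp [h1.le]⟩
      · exact ⟨⟨j, by omega⟩, by simp [h1]⟩
      · exact ⟨⟨0, by omega⟩, by simp [h0]⟩
  have key' : ∀ j, j ≤ N → ps α j = ps β j := by
    intro j hj
    rcases lt_or_eq_of_le hj with h1 | h1
    · exact key j h1
    · rw [h1, ps_last hα.1, ps_last hβ.1]
  funext i
  have h1 := ps_succ α i
  have h2 := ps_succ β i
  rw [key' _ i.2, key' _ i.2.le, h2] at h1
  exact (add_left_cancel h1).symm

/-- Among more than `C(m - 1, N - 1)` characters two are equal or opposite. -/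
theorem exists_eq [NeZero m] {r : ℕ} (hr : (m - 1).choose (N - 1) < r)
    (α : Fin r → Fin N → ZMod m) (hα : ∀ k, Prim (α k)) :
    ∃ k l, k ≠ l ∧ (α k = α l ∨ Opp (α k) (α l)) := by
  have h1 : (powersetCard (N - 1) ((univ : Finset (ZMod m)).erase 0)).card <
      (univ : Finset (Fin r)).card := by
    rw [card_powersetCard, card_erase_of_mem (mem_univ _), card_univ, ZMod.card, card_univ,
      Fintype.card_fin]
    exact hr
  obtain ⟨k, -, l, -, hkl, h2⟩ := exists_ne_map_eq_of_card_lt_of_maps_to h1
    (f := fun k => pset (α k)) fun k _ => (hα k).pset_mem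
  refine ⟨k, l, hkl, ?_⟩
  by_cases ho : Opp (α k) (α l)
  · exact Or.inr ho
  · exact Or.inl (eq_of_pset (hα k) (hα l) h2 ho)

end Pool.Agent.U840.VS
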