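import Pool.Agent.U840.VS.Comb
import Pool.Agent.T2H37.PR.WFinal

/-!
# Alternating sums of exterior products of zero-cycles on Fermat hypersurfaces
-/

set_option autoImplicit false

namespace Pool.Agent.U840.VS

open MvPolynomial Finset Pool.Agent.T2H37.FK Pool.Agent.T2H37.PR

variable {𝕜 : Type*} [Field 𝕜] [IsAlgClosed 𝕜] [CharZero 𝕜] {N m r : ℕ} [NeZero m]

/-- If the component of `(α 1, …, α r)` does not vanish and the `α k` are not zero, then two of
them are equal. -/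
theorem exists_eq_of_ne (hN : 2 ≤ N) (hr : (m - 1).choose (N - 1) < r)
    {f : (∀ _ : Fin r, Fin N → 𝕜) → 𝕜} (hf : GoodP (N := fun _ : Fin r => N) m f)
    (α : Fin r → Fin N → ZMod m) (hα : ∀ k, α k ≠ 0) {v : ∀ _ : Fin r, Fin N → 𝕜}
    (hv : OnP (N := fun _ : Fin r => N) m v)
    (hne : Pool.Agent.T2H37.PR.compP (N := fun _ : Fin r => N) f α v ≠ 0) :
    (∀ k i, α k i ≠ 0) ∧ ∃ k l, k ≠ l ∧ α k = α l := by
  have h0 : ∀ k, ∑ i, α k i = 0 := by
    intro k
    by_contra h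
    exact hne (hf.comp_sum_ne (k := k) h hv)
  have hP : ∀ k, Prim (α k) := fun k => ⟨h0 k, fun B hB hB' h =>
    hne (hf.comp_B_zero (k := k) hB hB' (hα k) h hv)⟩
  have hne0 : ∀ k i, α k i ≠ 0 := by
    intro k i h
    refine (hP k).2 {i} (singleton_nonempty i) ?_ (by rw [sum_singleton]; exact h)
    intro h1
    have h2 := congrArg Finset.card h1
    rw [card_singleton, card_univ, Fintype.card_fin] at h2
    omega
  refine ⟨hne0, ?_⟩
  obtain ⟨k, l, hkl, h | h⟩ := exists_eq hr α hP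
  · exact ⟨k, l, hkl, h⟩
  · exfalso
    obtain ⟨b, c, h1, h2, h3⟩ := h
    have hb : ∃ d : ∀ _ : Fin r, Fin N → Fin 3, d k = b ∧ d l = c := by
      refine ⟨Function.update (fun _ => c) k b, ?_, ?_⟩
      · rw [Function.update_self]
      · rw [Function.update_of_ne hkl.symm]
    obtain ⟨d, hd1, hd2⟩ := hb
    refine hne (hf.comp_three (N := fun _ : Fin r => N) hkl (b := d) h0 ?_ ?_ ?_ (hne0 k) (hne0 l) hv)
    · intro B
      rw [hd1, hd2]
      exact h1 B
    · rw [hd1]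
      exact h2
    · rw [hd2]
      exact h3

/-- the exchange of two factors with the same character -/
theorem exch_swap (hN : 2 ≤ N) {f : (∀ _ : Fin r, Fin N → 𝕜) → 𝕜}
    (hf : GoodP (N := fun _ : Fin r => N) m f) {α : Fin r → Fin N → ZMod m}
    {k l : Fin r} (hkl : k ≠ l) (h : α k = α l) (hα : ∀ i, α k i ≠ 0)
    {v : ∀ _ : Fin r, Fin N → 𝕜} (hv : OnP (N := fun _ : Fin r => N) m v) :
    Pool.Agent.T2H37.PR.compP (N := fun _ : Fin r => N) f α (fun j => v (Equiv.swap k l j)) =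
      (-1) ^ N * Pool.Agent.T2H37.PR.compP (N := fun _ : Fin r => N) f α v := by
  have h1 := hf.exch_block (N := fun _ : Fin r => N) hkl hN (Equiv.refl (Fin N))
    (fun i => by rw [Equiv.refl_apply, h]) hα hv
  rw [← h1]
  congr 1
  funext j
  by_cases h2 : j = l
  · subst h2
    rw [Function.update_self, Equiv.swap_apply_right]
    rfl
  · rw [Function.update_of_ne h2]
    by_cases h3 : j = k
    · subst h3
      rw [Function.update_self, Equiv.swap_apply_left]
      rfl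
    · rw [Function.update_of_ne h3, Equiv.swap_apply_of_ne_of_ne h3 h2]

variable (z : Fin r → (Fermat 𝕜 N m →₀ ℤ))

open Classical in
/-- the union of the supports -/
noncomputable def bigS : Finset (Fermat 𝕜 N m) := univ.biUnion fun i => (z i).support

open Classical in
/-- the points whose components are in the supports -/
noncomputable def bigT : Finset (Pts 𝕜 (fun _ : Fin r => N) m) :=
  Fintype.piFinset fun _ : Fin r => bigS z

lemma mem_bigT {x : Pts 𝕜 (fun _ : Fin r => N) m} : x ∈ bigT z ↔ ∀ k, x k ∈ bigS z :=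
  Fintype.mem_piFinset (α := Fin r) (δ := fun _ => Fermat 𝕜 N m)

lemma mem_prodSupp {w : Fin r → (Fermat 𝕜 N m →₀ ℤ)} {x : Pts 𝕜 (fun _ : Fin r => N) m} :
    x ∈ prodSupp (N := fun _ : Fin r => N) w ↔ ∀ k, x k ∈ (w k).support :=
  Fintype.mem_piFinset (α := Fin r) (δ := fun _ => Fermat 𝕜 N m)

/-- the point with permuted components -/
def swp (τ : Equiv.Perm (Fin r)) (x : Pts 𝕜 (fun _ : Fin r => N) m) :
    Pts 𝕜 (fun _ : Fin r => N) m := fun j => x (τ j)

lemma sum_big (σ : Equiv.Perm (Fin r)) (G : Pts 𝕜 (fun _ : Fin r => N) m → 𝕜) :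
    ∑ x ∈ prodSupp (N := fun _ : Fin r => N) (fun k => z (σ k)),
      (∏ k, (z (σ k) (x k) : 𝕜)) * G x = ∑ x ∈ bigT z, (∏ k, (z (σ k) (x k) : 𝕜)) * G x := by
  classical
  refine sum_subset ?_ ?_
  · intro x hx
    rw [mem_prodSupp] at hx
    rw [mem_bigT]
    intro k
    rw [bigS, mem_biUnion]
    exact ⟨σ k, mem_univ _, hx k⟩
  · intro x _ hx
    rw [mem_prodSupp] at hx
    push Not at hx
    obtain ⟨k, hk⟩ := hx
    rw [Finsupp.notMem_support_iff] at hk
    rw [prod_eq_zero (mem_univ k) (by rw [hk, Int.cast_zero]), zero_mul]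

lemma psi_ext (ψ : (Pts 𝕜 (fun _ : Fin r => N) m →₀ ℤ) →+ 𝕜) (σ : Equiv.Perm (Fin r)) :
    ψ (extProd (N := fun _ : Fin r => N) fun k => z (σ k)) =
      ∑ x ∈ bigT z, (∏ k, (z (σ k) (x k) : 𝕜)) *
        extP (fun x : Pts 𝕜 (fun _ : Fin r => N) m => ψ (Finsupp.single x 1))
          fun k => (x k).1.rep := by
  rw [← sum_big, extProd, map_sum]
  refine sum_congr rfl fun x _ => ?_
  have h4 : (Finsupp.single x (∏ k, z (σ k) (x k)) : Pts 𝕜 (fun _ : Fin r => N) m →₀ ℤ) =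
      (∏ k, z (σ k) (x k)) • Finsupp.single x 1 := by
    rw [Finsupp.smul_single, smul_eq_mul, mul_one]
  rw [h4, map_zsmul, zsmul_eq_mul, extP_of _ (onP_rep x)]
  push_cast
  have h5 : mkP (fun k => (x k).1.rep) (onP_rep x) = x := by
    funext k
    apply Subtype.ext
    exact (x k).1.mk_rep
  rw [h5]

/-- an alternating sum vanishes if the function is changed by the sign under one transposition -/
lemma alt_zero (C : Pts 𝕜 (fun _ : Fin r => N) m → 𝕜) {k l : Fin r} (hkl : k ≠ l)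
    (hC : ∀ x, C (swp (Equiv.swap k l) x) = (-1) ^ N * C x) :
    ∑ σ : Equiv.Perm (Fin r), ((Equiv.Perm.sign σ : ℤ) : 𝕜) ^ (N + 1) *
      ∑ x ∈ bigT z, (∏ k, (z (σ k) (x k) : 𝕜)) * C x = 0 := by
  classical
  set τ := Equiv.swap k l with hτ
  set S := ∑ σ : Equiv.Perm (Fin r), ((Equiv.Perm.sign σ : ℤ) : 𝕜) ^ (N + 1) *
      ∑ x ∈ bigT z, (∏ k, (z (σ k) (x k) : 𝕜)) * C x with hS
  have hττ : ∀ j, τ (τ j) = j := fun j => by
    rw [hτ]
    exact Equiv.swap_apply_self k l j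
  have h1 : ∀ σ : Equiv.Perm (Fin r), ∑ x ∈ bigT z, (∏ k, (z ((σ * τ) k) (x k) : 𝕜)) * C x =
      (-1) ^ N * ∑ x ∈ bigT z, (∏ k, (z (σ k) (x k) : 𝕜)) * C x := by
    intro σ
    rw [mul_sum]
    refine sum_nbij' (swp τ) (swp τ) ?_ ?_ ?_ ?_ ?_
    · intro x hx
      rw [mem_bigT] at hx ⊢
      exact fun j => hx (τ j)
    · intro x hx
      rw [mem_bigT] at hx ⊢
      exact fun j => hx (τ j)
    · intro x _
      funext j
      exact congrArg (fun i => (x i : Fermat 𝕜 N m)) (hττ j)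
    · intro x _
      funext j
      exact congrArg (fun i => (x i : Fermat 𝕜 N m)) (hττ j)
    · intro x _
      have h2 : (∏ k, (z ((σ * τ) k) (x k) : 𝕜)) = ∏ k, (z (σ k) (swp τ x k) : 𝕜) := by
        rw [← Equiv.prod_comp τ fun k => (z ((σ * τ) k) (x k) : 𝕜)]
        refine prod_congr rfl fun j _ => ?_
        rw [Equiv.Perm.mul_apply, hτ, Equiv.swap_apply_self]
        rfl
      rw [h2, hC]
      have h3 : ((-1 : 𝕜) ^ N) * (-1) ^ N = 1 := by rw [← mul_pow]; norm_num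
      linear_combination (-(∏ k, (z (σ k) (swp τ x k) : 𝕜)) * C x) * h3
  have h2 : S = -S := by
    conv_lhs => rw [hS, ← Equiv.sum_comp (Equiv.mulRight τ)]
    rw [hS, ← sum_neg_distrib]
    refine sum_congr rfl fun σ _ => ?_
    rw [Equiv.coe_mulRight, h1, Equiv.Perm.sign_mul, hτ, Equiv.Perm.sign_swap hkl]
    push_cast
    have h3 : ((-1 : 𝕜) ^ (N + 1)) * (-1) ^ N = -1 := by
      rw [pow_succ, mul_right_comm, ← mul_pow]
      norm_num
    rw [mul_pow]
    linear_combination (((Equiv.Perm.sign σ : ℤ) : 𝕜) ^ (N + 1) *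
      ∑ x ∈ bigT z, (∏ k, (z (σ k) (x k) : 𝕜)) * C x) * h3
  have h3 : (2 : 𝕜) * S = 0 := by linear_combination h2
  exact (mul_eq_zero.1 h3).resolve_left two_ne_zero

/-- Voisin's conjecture for the Fermat hypersurfaces -/
theorem voisin (hN : 2 ≤ N) (hr : (m - 1).choose (N - 1) < r)
    (hz : ∀ i, ((z i).sum fun _ c => c) = 0) :
    ∃ j : ℕ, 0 < j ∧ j • ∑ σ : Equiv.Perm (Fin r), ((Equiv.Perm.sign σ : ℤ) ^ (N + 1)) •
      extProd (N := fun _ : Fin r => N) (fun k => z (σ k)) ∈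
      RatEquivZero 𝕜 (fun _ : Fin r => N) m := by
  classical
  refine torsion_of' _ fun ψ hψ0 => ?_
  set F : (∀ _ : Fin r, Fin N → 𝕜) → 𝕜 :=
    extP fun x : Pts 𝕜 (fun _ : Fin r => N) m => ψ (Finsupp.single x 1) with hF
  have hFG : GoodP (N := fun _ : Fin r => N) m F := goodP_of ψ hψ0
  have h1 : ψ (∑ σ : Equiv.Perm (Fin r), ((Equiv.Perm.sign σ : ℤ) ^ (N + 1)) •
      extProd (N := fun _ : Fin r => N) (fun k => z (σ k))) =
      ∑ σ : Equiv.Perm (Fin r), ((Equiv.Perm.sign σ : ℤ) : 𝕜) ^ (N + 1) *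
        ∑ x ∈ bigT z, (∏ k, (z (σ k) (x k) : 𝕜)) * F fun k => (x k).1.rep := by
    rw [map_sum]
    refine sum_congr rfl fun σ _ => ?_
    rw [map_zsmul, zsmul_eq_mul, psi_ext]
    push_cast
    rfl
  rw [h1]
  refine mul_left_cancel₀ (card_ne_zeroP (𝕜 := 𝕜) (N := fun _ : Fin r => N) (m := m)) ?_
  rw [mul_zero]
  have h2 : ((Fintype.card (∀ k, Fin ((fun _ : Fin r => N) k) → ZMod m) : ℕ) : 𝕜) *
      (∑ σ : Equiv.Perm (Fin r), ((Equiv.Perm.sign σ : ℤ) : 𝕜) ^ (N + 1) *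
        ∑ x ∈ bigT z, (∏ k, (z (σ k) (x k) : 𝕜)) * F fun k => (x k).1.rep) =
      ∑ α : ∀ _ : Fin r, Fin N → ZMod m, ∑ σ : Equiv.Perm (Fin r),
        ((Equiv.Perm.sign σ : ℤ) : 𝕜) ^ (N + 1) *
        ∑ x ∈ bigT z, (∏ k, (z (σ k) (x k) : 𝕜)) *
          Pool.Agent.T2H37.PR.compP (N := fun _ : Fin r => N) F α fun k => (x k).1.rep := by
    rw [sum_comm, mul_sum]
    refine sum_congr rfl fun σ _ => ?_
    rw [← mul_sum, sum_comm]
    simp only [← mul_sum]
    have h3 : ∀ x : Pts 𝕜 (fun _ : Fin r => N) m,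
        ∑ α : ∀ _ : Fin r, Fin N → ZMod m,
          Pool.Agent.T2H37.PR.compP (N := fun _ : Fin r => N) F α (fun k => (x k).1.rep) =
        ((Fintype.card (∀ k, Fin ((fun _ : Fin r => N) k) → ZMod m) : ℕ) : 𝕜) *
          F fun k => (x k).1.rep := fun x => sum_compP (N := fun _ : Fin r => N) F _
    simp only [h3]
    rw [mul_left_comm]
    congr 1
    rw [mul_sum]
    refine sum_congr rfl fun x _ => ?_
    ring
  rw [h2]
  refine sum_eq_zero fun α _ => ?_
  by_cases hα : ∀ k, α k ≠ 0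
  · by_cases hne : ∀ x : Pts 𝕜 (fun _ : Fin r => N) m,
        Pool.Agent.T2H37.PR.compP (N := fun _ : Fin r => N) F α (fun k => (x k).1.rep) = 0
    · refine sum_eq_zero fun σ _ => ?_
      rw [sum_eq_zero fun x _ => by rw [hne, mul_zero], mul_zero]
    · push Not at hne
      obtain ⟨x₀, hx₀⟩ := hne
      obtain ⟨hne0, k, l, hkl, h⟩ := exists_eq_of_ne hN hr hFG α hα (onP_rep x₀) hx₀
      refine alt_zero z (fun x => Pool.Agent.T2H37.PR.compP (N := fun _ : Fin r => N) F α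
        (fun k => (x k).1.rep)) hkl fun x => ?_
      exact exch_swap hN hFG hkl h (hne0 k) (onP_rep x)
  · push Not at hα
    obtain ⟨k₀, hk₀⟩ := hα
    refine sum_eq_zero fun σ _ => ?_
    rw [← sum_big, sum_supp_zero (N := fun _ : Fin r => N) (fun k => z (σ k)) k₀ (hz _)
      (fun x => Pool.Agent.T2H37.PR.compP (N := fun _ : Fin r => N) F α
        (fun k => (x k).1.rep)) ?_, mul_zero]
    intro x x' hxx
    refine hFG.comp_congr (N := fun _ : Fin r => N) (fun _ => hN) (onP_rep x) (onP_rep x')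
      fun k hk => ?_
    have hkk : k ≠ k₀ := by
      rintro rfl
      exact hk hk₀
    rw [hxx k hkk]

end Pool.Agent.U840.VS
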